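import Pool.Agent.Lib.MP_17a322_ntTG.F3
import Pool.Agent.Lib.MP_17a322_ntTG.F4

/-!
Integral points on the complement of `q` ample divisors in families of `n`-dimensional varieties over abelian
varieties. Enough are: `q ≥ 2 n` divisors which meet properly (`q ≥ 3` for `n = 1`); `q ≥ n + 2` divisors which meet
properly and are proportional on the generic fibre, for example any `n + 2` ample divisors of a projective bundle
which meet properly;
`q ≥ n g` divisors, for `n ≥ 2`, of which at most `g` have a common point and no two a common component, on a normal
generic fibre; `q ≥ 2 n g` divisors in ANY position of which at most `g` have a common point (`q > 2 g` for `n = 1`), and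
`q > (n + 1) g` if they are proportional on the generic fibre.

THE ABELIAN VARIETY. `A` is an abelian variety of any dimension over the number field `K`, embedded in
`ℙ^N`: `A.I` is its homogeneous ideal, prime over every extension field; the sets `A.Pts L` of the points
over the extension fields `L` of `K` are groups, compatibly with homomorphisms of fields over `K`; and
there are forms `A.S a b` of bidegree `(2, 2)` such that `A.S a b (P, Q)` is proportional to
`X a (P + Q) * X b (P - Q)` (with a nonzero factor that does not depend on `a` and `b`). Such an
embedding exists for every abelian variety, for example the one given by the fourth power of an ample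
symmetric line bundle. `h = logHeight`.

THE VARIETY `X` AND THE DIVISORS `D_i`. `X` is the closed subscheme of `A × ℙ^m × ... × ℙ^m` (`q` factors
`ℙ^m`) with the equations `H_j(x, y) = 0`, homogeneous in the coordinates `x` of `A` and in the
coordinates `y_i = (y_(i,0), ..., y_(i,m))` of each factor `ℙ^m` (`Fm`, `Mh`; `InX`: the points). `D_i` is the
divisor `y_(i,0) = 0` of `X`. A generic point of `A` is a point `P` over an extension field of `K` such that
all forms over `K` which vanish at `P` are in `A.I` (`Gen`); the fibre of `X → A` at `P`, for an algebraically
closed field, is the geometric generic fibre.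
Let `X` be a projective variety with a morphism to `A`, and `D_1, ..., D_q` ample divisors of `X`. Then
`X` has this form: a multiple of `D_i` is a hyperplane section for an embedding of `X` in `ℙ^m`, and
together these embeddings and the morphism to `A` give an embedding of `X` in `A × ℙ^m × ... × ℙ^m`
(multiples of the `D_i` do not change the theorem below).
`Fam`: the ideal generated by the `H_j(P, y)` is prime for the generic points `P` over algebraically closed fields,
that is the generic fibre is geometrically integral (the ideal of a fibre may be saturated by adding equations),
and it is not contained in the `D_i`.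
`Dim n`: the generic fibre has dimension `n`, and so have its images in the factors `ℙ^m`, which holds for ample
divisors (and if a multiple of `D_i` is base point free and big on the generic fibre).
`Meet Q`: the divisors `D_i`, `i ∈ Q`, meet properly on the generic fibre: the equation of each of them is
not a zero divisor on the intersection of any others of them (locally: `sat`). If the generic fibre is smooth, or
only Cohen-Macaulay, this means that any `k` of these `D_i` meet in codimension `k` on it or not at all, with any
singularities. For a set `Q` with two elements it is enough that the generic fibre is normal and that the two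
divisors have no common component on it; for a set `Q` with at most one element it is no condition.
`Cov a b`: if the `D_i`, `i ∈ I`, have a common point on the geometric generic fibre (`Conc`), then there are `a`
sets `Q_1, ..., Q_a` of indices with `Meet Q_k`, such that every `i ∈ I` is in at least `b` of them. Examples:
  `a = b = 1`: all the `D_i` meet properly (take `Q_1 = {1, ..., q}`);
  `a = g`, `b = 1`: the `D_i` are in ANY position, and at most `g` of them have a common point on the geometric
    generic fibre (take the sets `{i}`, `i ∈ I`);
  `a = g`, `b = l`, with `l ≤ g` and `l ≤ q`: any `l` of the `D_i` meet properly, and at most `g` of them have a common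
    point on the geometric generic fibre (write `I` in a cycle of length `g`, which may have empty places, and take
    the `g` segments of length `l`).
`Par ρ`: the divisors `D_i` are proportional to the positive numbers `ρ_i` on the generic fibre `X_η`: for all `i`, `l` and
`δ > 0` there are `u > 0` and `v` with `v / u ≥ (1 - δ) ρ_l / ρ_i` such that `u D_l - v D_i` is effective on `X_η`. This
holds if the `D_i` are ample (with `y_i` as above) and numerically equivalent to `ρ_i L` on `X_η`, for one `L`: if
`v / u < ρ_l / ρ_i` then a multiple of `u D_l - v D_i` is effective. For example if `D_i` has the class `ρ_i L + π^* N_i` with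
any classes `N_i` of `A`, `π : X → A`; or if the Picard number of `X_η` is one, as for all projective bundles; or if `n = 1`.

THE THEOREM. Let `n ≥ 1` be the dimension of the generic fibre, `q ≥ 1`, and let `Cov a b` hold with `1 ≤ b ≤ a`. Let
`c = 2 n`, or `c = n + 1` and `Par ρ` for some `ρ_i > 0`.
(1) There are positive weights `w_i` with the sum `1` and `θ ≤ c a / (q b)`, depending only on `X`, the `D_i`, `a`, `b` and
`c`, such that for all `S` and `ε > 0` there are `C` and a form `F(x, y)` that does not vanish on the generic fibre
(`Exc`; so the points of `X` with `F = 0` are a proper closed subset if `X` is irreducible) such that for ALL points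
`(P, y)` of `X(K)` with `F(P, y) ≠ 0`: the point is not on the `D_i`, and
`∑ i, w_i m_{S,D_i}(y) ≤ θ ∑ i, w_i h_{D_i}(y) + ε (∑ i, h_{D_i}(y) + h(P)) + C`,
where `m_{S,D_i}(y) = prox S (y_i)` is the proximity to `D_i`: the sum over the infinite places and the
places in `S` of the local heights, and `h_{D_i}(y) = h(y_i)`.
(2) Let `q b > c a`, or `q b ≥ 2 n a` and `n ≥ 2`. Then `θ < 1`, and the `S`-integral points of
`X \ (D_1 ∪ ... ∪ D_q)` are not dense: for every finite set `S` of places all but finitely many of the points of `X`
over `K` with `S`-integral affine coordinates `y_(i,l) / y_(i,0)` are in a proper closed subset. Here `p(y)`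
(`IsMap`) are forms which define the morphism `X → A` on the image of `X` in `ℙ^m × ... × ℙ^m`, at the points where
they do not all vanish.
The condition of (2) is, in general, for `n ≥ 2` and `n = 1`:
  `q ≥ 2 n`, and `q ≥ 3`, if the `D_i` meet properly;
  `q ≥ 2 n g`, and `q > 2 g`, if at most `g` of the `D_i` have a common point;
  `q ≥ n g` for `n ≥ 2`, if any two of the `D_i` meet properly and at most `g ≥ 2` of them have a common point;
  `q ≥ 2 g` for `n ≥ 2`, if any `n` of the `D_i` meet properly and at most `g ≥ n` of them have a common point;
and for divisors which are proportional on the generic fibre: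
  `q ≥ n + 2`, if the `D_i` meet properly;
  `q > (n + 1) g`, if at most `g` of the `D_i` have a common point;
  `q > (n + 1) g / l`, if any `l` of the `D_i` meet properly and at most `g ≥ l` of them have a common point;
everything on the geometric generic fibre. As `n = dim X - dim A` if `X` is dominant over `A`: instead of `2 dim X`
it is enough to have `2 (dim X - dim A)` ample divisors (three if `dim X = dim A + 1`). They may meet in any way
outside of the generic fibre, where they may have components in common. For example, let `X` be ANY smooth projective
surface over `K` with `q(X) ≥ 1` and `D_1, D_2, D_3` ANY three ample curves on `X` without common components. If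
`q(X) = 1` the Albanese map `X → A` has connected fibres, on which the `D_i` are disjoint generically: `n = 1`. (In the
other cases the integral points are not dense by the theorems of Faltings: his theorem on diophantine
approximation on `A` if the Albanese map is generically finite onto an abelian surface, and his theorem on
subvarieties of abelian varieties if it is not dominant. If `X(K)` is not empty the Albanese map is defined over
`K`.) For a smooth threefold with a morphism with connected fibres to an elliptic curve four ample divisors in
general position are enough, and `2 g` ample divisors without common components, if no curve that is not in a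
fibre is in more than `g ≥ 2` of them. For `X = P(E)`, `E` a vector bundle of rank `n + 1` on `A`, any `n + 2` ample
divisors which meet properly on the generic fibre are enough, of any degrees on the fibres (and for `n + 1` relative
hyperplanes `K_X + D` is a class of `A`, which is not big).
If `X` is smooth, the `D_i` are ample and `D = D_1 + ... + D_q` has normal crossings then the pair `(X, D)` of (2) is of
log general type, and (2) is the conjecture of Lang and Vojta for it.

KNOWN. Corvaja and Zannier (2004), Levin (2009), Corvaja, Levin and Zannier (2009), Autissier (2009, 2011), Ru and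
Vojta (2020), Heier and Levin (2021) and others: for `A = 0` and divisors which meet properly the theorem is that of
Autissier, `2 dim X` ample divisors in general position are enough (and Siegel's theorem for curves); for divisors
of which at most `g` have a common point, more than `2 [(g + 1) / 2] dim X` ample divisors are enough by the theorem of
Levin (2009), to be compared with `n g` above, if no two of them have a common component. For `dim A > 0` they need
these numbers with `dim X`, and not `n = dim X - dim A`.
Vojta (1996) and Noguchi and Winkelmann (2002), from the case of semiabelian varieties: `dim X - q(X) + ρ + 1`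
irreducible divisors are enough, where `ρ` is the rank of the group they generate in the Neron-Severi group of `X`; so
the theorem above is known if `ρ` is small, for example for numerically parallel divisors, where `n + 2` are enough; for
surfaces with `q(X) = 1` and divisors that are not parallel this number is at least 4. For divisors which are
proportional on the fibres only, `ρ` may be as large as `1 +` the Picard number of `A`. For `A = 0` and divisors
proportional to `ρ_i` the inequality is that of Corvaja and Zannier (2004) and Evertse and Ferretti (2008). The case
`n = 0` is a consequence of the theorem of Faltings on diophantine approximation on `A` (1991).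

THE PROOF uses the subspace theorem with moving targets over `A` of `Pool.Agent.Lib.MP_17a322_nt.SL` (heights of
the targets as large as those of the points), filtrations of the forms of multidegree `M` by their orders of
vanishing along the `D_i` on the generic fibre and a basis for each finite set of them which is adapted to the
joint filtration, as in the work of Autissier, and the choice of weights by a compactness argument. For `q b = 2 n a`
the dimensions of the spaces of forms which vanish along `D_i` are estimated with a second term, by the
eventual polynomiality and convexity of the Hilbert function in each variable. For proportional divisors one takes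
multidegrees `M` for which the classes of the `M_i D_i` are nearly equal, so that `M - j D_i` is nearly a multiple of
`M`. At each place the divisors which are close to a point have a common point on the generic fibre, up to a
vertical term (Nullstellensatz), and the factor `b / a` comes from the mean of the estimates for the `a` families
`Q_k`. The Mordell-Weil theorem and everything else are proved in the library, nothing is assumed.
-/

set_option autoImplicit false

universe u

namespace Pool.Agent.Results.MP_17a322_nt.AmpleDivisors

open MvPolynomial Height UTA UTD
open Pool.Agent.Lib.MP_17a322_nt.VA Pool.Agent.Lib.MP_17a322_nt.SL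

/-- The equations `H_j` are homogeneous, the generic fibre of `X → A` is geometrically integral and it is not
contained in a divisor `D_i`. -/
structure Fam {K : Type u} [Field K] {N q m κ : ℕ} (A : AV K N) (H : Fin κ → Fm K N q m) : Prop where
  hom : ∀ j, ∃ a d, Mh (H j) a d
  prime : ∀ (L : Type u) [Field L] [IsAlgClosed L] [Algebra K L] (P : A.Pts L), Gen A P →
    (fib H (A.x P)).IsPrime
  ne : ∀ (L : Type u) [Field L] [IsAlgClosed L] [Algebra K L] (P : A.Pts L), Gen A P →
    ∀ i, X (i, 0) ∉ fib H (A.x P)

/-- The generic fibre of `X → A` has dimension `n`, and so have its images in the factors `ℙ^m`: there are `n + 1`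
forms of one multidegree `(d, ..., d)` without common zero on it, and `n + 1` coordinates of each factor without
algebraic relation on it. -/
structure Dim {K : Type u} [Field K] {N q m κ : ℕ} (n : ℕ) (A : AV K N) (H : Fin κ → Fm K N q m) : Prop where
  le : ∀ (L : Type u) [Field L] [IsAlgClosed L] [Algebra K L] (P : A.Pts L), Gen A P →
    ∃ d : ℕ, 0 < d ∧ ∃ f : Fin (n + 1) → MvPolynomial (Fin q × Fin (m + 1)) L,
      (∀ j, f j ∈ MH L m fun _ => d) ∧ ∀ y, InX H (A.x P) y →
        ∃ j, aeval (fun z : Fin q × Fin (m + 1) => y z.1 z.2) (f j) ≠ 0
  big : ∀ (L : Type u) [Field L] [IsAlgClosed L] [Algebra K L] (P : A.Pts L), Gen A P →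
    ∀ i, ∃ t : Fin (n + 1) → Fin (m + 1), ∀ G : MvPolynomial (Fin (n + 1)) L,
      aeval (fun j => (X (i, t j) : MvPolynomial (Fin q × Fin (m + 1)) L)) G ∈ fib H (A.x P) → G = 0

/-- The divisors `D_i`, `i ∈ Q`, meet properly on the generic fibre `X_P`: for every set `J` of them, the
equation `y_(i, 0)` of a further one is not a zero divisor on the intersection of `X_P` with the `D_j`, `j ∈ J`. -/
def Meet {K : Type u} [Field K] {N q m κ : ℕ} (A : AV K N) (H : Fin κ → Fm K N q m) (Q : Finset (Fin q)) : Prop :=
  ∀ (L : Type u) [Field L] [IsAlgClosed L] [Algebra K L] (P : A.Pts L), Gen A P →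
    ∀ J : Finset (Fin q), J ⊆ Q → ∀ i ∈ Q, i ∉ J → ∀ f : MvPolynomial (Fin q × Fin (m + 1)) L,
      X (i, 0) * f ∈ sat (fib H (A.x P) ⊔ Ideal.span ((fun j => X (j, 0)) '' (J : Set (Fin q)))) →
      f ∈ sat (fib H (A.x P) ⊔ Ideal.span ((fun j => X (j, 0)) '' (J : Set (Fin q))))

/-- The `D_i`, `i ∈ I`, have a common point on the geometric generic fibre of `X → A`. -/
def Conc {K : Type u} [Field K] {N q m κ : ℕ} (A : AV K N) (H : Fin κ → Fm K N q m) (I : Finset (Fin q)) : Prop :=
  ∃ (L : Type u) (_ : Field L) (_ : IsAlgClosed L) (_ : Algebra K L) (P : A.Pts L) (y : Fin q → Fin (m + 1) → L),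
    Gen A P ∧ InX H (A.x P) y ∧ ∀ i ∈ I, y i 0 = 0

/-- For all `D_i`, `i ∈ I`, with a common point on the geometric generic fibre there are `a` sets `Q_k` of indices
such that the `D_i`, `i ∈ Q_k`, meet properly for each `k`, and every `i ∈ I` is in at least `b` of the `Q_k`. -/
def Cov {K : Type u} [Field K] {N q m κ : ℕ} (a b : ℕ) (A : AV K N) (H : Fin κ → Fm K N q m) : Prop :=
  ∀ I : Finset (Fin q), Conc A H I → ∃ Q : Fin a → Finset (Fin q), (∀ k, Meet A H (Q k)) ∧
    ∀ i ∈ I, b ≤ (Finset.univ.filter fun k => i ∈ Q k).card

/-- The divisors `D_i` are proportional on the generic fibre, with the proportions `ρ_i`: for all `i`, `l` and `δ > 0`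
there is a form `f` of a degree `u > 0` in the coordinates of the factor `l`, not zero on the generic fibre, which
vanishes to order at least `v` along `D_i`, that is, it is locally a multiple of `y_(i, 0)^v`, where `v / u` is at least
`(1 - δ) ρ_l / ρ_i`. -/
def Par {K : Type u} [Field K] {N q m κ : ℕ} (A : AV K N) (H : Fin κ → Fm K N q m) (ρ : Fin q → ℝ) : Prop :=
  ∀ (L : Type u) [Field L] [IsAlgClosed L] [Algebra K L] (P : A.Pts L), Gen A P →
    ∀ δ : ℝ, 0 < δ → ∀ i l : Fin q, ∃ u v : ℕ, 0 < u ∧ (1 - δ) * u * ρ l ≤ v * ρ i ∧
      ∃ f ∈ MH L m (Pi.single l u), f ∉ fib H (A.x P) ∧ f ∈ sat (fib H (A.x P) ⊔ Ideal.span {X (i, 0) ^ v})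

/-- Let `K` be a number field, `A` an abelian variety over `K` embedded in `ℙ^N` by a suitable symmetric
line bundle, `X` the closed subscheme `H(x, y) = 0` of `A × ℙ^m × ... × ℙ^m` and `D_i` the divisor
`y_(i,0) = 0` of `X`, `i = 1, ..., q`, `q ≥ 1`. Suppose that the generic fibre of `X → A` is a geometrically integral
variety which is not contained in the `D_i`, that it and its images in the factors `ℙ^m` have dimension `n ≥ 1`, and
that all `D_i` with a common point on it are covered `b` times by `a` families of divisors which meet properly,
`1 ≤ b ≤ a` (`Cov`; for example `a = b = 1` if all the `D_i` meet properly, and `b = 1` if at most `a` of the `D_i` have a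
common point). Let `c = 2 n`, or `c = n + 1` if the `D_i` are proportional on the generic fibre (`Par`).
There are `w_i > 0` with the sum `1` and `θ ≤ c a / (q b)` such that:
(1) for every finite set `S` of finite places and every `ε > 0` there are `C` and a form `F` that does not
vanish on the generic fibre, such that for ALL points `(P, y)` of `X(K)` with `F(P, y) ≠ 0`: `y_(i,0) ≠ 0` for all `i`,
and `∑ i, w_i m_{S,D_i}(y) ≤ θ ∑ i, w_i h_{D_i}(y) + ε (∑ i, h_{D_i}(y) + h(P)) + C`;
(2) if `c a < q b`, or `n ≥ 2` and `2 n a ≤ q b`, then `θ < 1`, and if `p` are forms in `y` which define `X → A` then for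
every finite set `S` of finite places there is a form `F` that does not vanish on the generic fibre, such that
only finitely many points `(P, y)` of `X(K)` with `F(P, y) ≠ 0` and `y_(i,0) = 1` have coordinates `y_(i,l)` that are
integral outside of `S`. -/
theorem result {K : Type u} [Field K] [NumberField K] {N q m κ n a b c : ℕ} (A : AV K N)
    (H : Fin κ → Fm K N q m) (hn : 0 < n) (hq : 0 < q) (hb : 0 < b) (hba : b ≤ a)
    (hX : Fam A H) (hD : Dim n A H) (hC : Cov a b A H)
    (hc : c = 2 * n ∨ c = n + 1 ∧ ∃ ρ : Fin q → ℝ, (∀ i, 0 < ρ i) ∧ Par A H ρ) :
    ∃ (w : Fin q → ℝ) (θ : ℝ), (∀ i, 0 < w i) ∧ ∑ i, w i = 1 ∧ 0 < θ ∧ θ ≤ c * a / (q * b) ∧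
      (∀ (S : Finset (NumberField.FinitePlace K)) (ε : ℝ), 0 < ε →
        ∃ (C : ℝ) (F : Fm K N q m), Exc A H F ∧
          ∀ (P : A.Pts K) (y : Fin q → Fin (m + 1) → K), InX H (A.x P) y → val F (A.x P) y ≠ 0 →
            (∀ i, y i 0 ≠ 0) ∧
            ∑ i, w i * prox S (y i) ≤ θ * ∑ i, w i * logHeight (y i) +
              ε * (∑ i, logHeight (y i) + logHeight (A.x P)) + C) ∧
      (c * a < q * b ∨ 2 ≤ n ∧ 2 * n * a ≤ q * b → θ < 1 ∧
        ∀ p : Fin (N + 1) → MvPolynomial (Fin q × Fin (m + 1)) K, IsMap A H p →
        ∀ S : Finset (NumberField.FinitePlace K),
        ∃ F : Fm K N q m, Exc A H F ∧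
          {z : A.Pts K × (Fin q → Fin (m + 1) → K) | InX H (A.x z.1) z.2 ∧ (∀ i, z.2 i 0 = 1) ∧
            (∀ v ∉ S, ∀ i l, v (z.2 i l) ≤ 1) ∧ val F (A.x z.1) z.2 ≠ 0}.Finite) := by
  have h0 : ∀ Q, Meet A H Q → Vars A H Q := fun Q hQ => ⟨hX.hom, hX.prime, hX.ne, hQ⟩
  have hE : Meet A H ∅ := fun L _ _ _ P _ J _ i hi => absurd hi (Finset.notMem_empty i)
  refine UTG.T5p_main hn hq hb hba A H (h0 ∅ hE) ⟨hD.le, hD.big⟩ (fun I hI => ?_)
    (hc.imp id fun h => ⟨h.1, h.2.imp fun ρ hρ => ⟨hρ.1, UTG.Par_of hρ.2⟩⟩)
  obtain ⟨Q, hQ, hQ2⟩ := hC I hI
  exact ⟨Q, fun k => h0 _ (hQ k), hQ2⟩

end Pool.Agent.Results.MP_17a322_nt.AmpleDivisors
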