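import Pool.Agent.Lib.MP_17a322_ntTH.A9

/-!
The inequality of Ru and Vojta for all rational points of families of varieties over abelian varieties and for
arbitrary divisors, with the exact terms of the base: one inequality which contains Schmidt's subspace theorem, its
generalisations to divisors on projective varieties, and Faltings' inequality on abelian varieties; for all
projective bundles `P(E)` over `A` it is Vojta's main conjecture.

THE ABELIAN VARIETY. `A` is an abelian variety of any dimension over the number field `K`, embedded in
`ℙ^N`: `A.I` is its homogeneous ideal, prime over every extension field; the sets `A.Pts L` of the points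
over the extension fields `L` of `K` are groups, compatibly with homomorphisms of fields over `K`; and
there are forms `A.S a b` of bidegree `(2, 2)` such that `A.S a b (P, Q)` is proportional to
`X a (P + Q) * X b (P - Q)` (with a nonzero factor that does not depend on `a` and `b`). Such an
embedding exists for every abelian variety, for example the one given by the fourth power of an ample
symmetric line bundle. The point is allowed. `h = logHeight`.

THE VARIETY `X` AND THE DIVISORS `D_i`. `X` is the closed subscheme of `A × ℙ^m × ... × ℙ^m` (`b` factors
`ℙ^m`) with the equations `H_j(x, y) = 0`, homogeneous in the coordinates `x` of `A` and in the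
coordinates `y_j = (y_(j,0), ..., y_(j,m))` of each factor `ℙ^m` (`Fm`, `Mh`; `InX`: the points). `D_i` is the
divisor `F_i(x, y) = 0` of `X`, where `F_i` is ANY form, of degree `a_i` in `x` and of multidegree
`d_i = (d_(i,1), ..., d_(i,b))` in `y`; all these numbers may be zero. A generic point of `A` is a point `P` over an
extension field of `K` such that all forms over `K` which vanish at `P` are in `A.I` (`Gen`); the fibre of `X → A` at
`P`, for an algebraically closed field, is the geometric generic fibre. `Fam`: the ideal generated by the `H_j(P, y)`
is prime for the generic points `P` over algebraically closed fields, that is the generic fibre is geometrically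
integral (its ideal may be saturated by adding equations), and it is not contained in the `D_i` or in a hyperplane
`y_(j,0) = 0` (for this it is enough to number the coordinates suitably). Every projective variety `X` with a
morphism to `A` with a geometrically integral generic fibre is of this form. The forms of a large multidegree `d` give,
up to divisors of `A`, all effective divisors of the classes `O(d) + π^* N` on `X`, for every class `N` of `A`; and any
effective divisor `D_i` whose class is generated by global sections is `y_(j,0) = 0` for one more factor `ℙ^m`, the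
morphism from `X` to `ℙ^m` by sections of `O(D_i)` which generate it. There is NO condition on the position of the `D_i`.
`Meet Q`: the divisors `D_i`, `i ∈ Q`, meet properly on the generic fibre: the equation of each of them is
not a zero divisor on the intersection of any others (locally: `sat`). If the generic fibre is smooth, or only
Cohen-Macaulay, this means that any `k` of them meet in codimension `k` on it or not at all. For hyperplanes of a
projective space it means that they are in general position. Divisors of `A`, that is `D_i` with `d_i = 0`, are no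
condition.

THE TERMS OF THE INEQUALITY. Let `M = (M_1, ..., M_b)` be any multidegree, and `V_M` the space of the forms
of multidegree `M` on the generic fibre, of dimension `h(M)` (`hf`; the same at all generic points).
`W_i` (`wt`) is the sum for `j = 1, ..., J` of the dimensions of the spaces of those forms in `V_M` which vanish to
order at least `j` along `D_i`, with any `J`. If `D_i` is a divisor of `A` (`d_i = 0`) then `W_i = J h(M)`.
`lamD`: `λ_{D_i,v}(P, y) = a_i log |x|_v + ∑ j, d_(i,j) log |y_j|_v - log |F_i(x, y)|_v` for the coordinates `x` of `P`,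
where `|x|_v` is the maximum.
`Rel`: `E_P` is the space of the vectors `(w_μ)`, where `μ` runs through the monomials `y^μ` of multidegree `M`, with
`∑ a_μ w_μ = 0` for all forms `∑ a_μ y^μ` of multidegree `M` in the ideal generated by the `H_j(P, y)` (for `P` in an
open subset this is the ideal of the fibre). It is the dual of the space of the forms of multidegree `M` on this
fibre, and a subspace of a fixed space; over an open subset of `A` it is a vector bundle `E` of rank `h(M)`, the dual of
the direct image of `O(M)`. `hPl(E_P)` is the height of the vector of its Plücker coordinates, the height of `P` with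
respect to `det(E)^(-1)`.

THE THEOREM. For all `S` and `ε > 0` there are `C` and a form `G(x, y)` that does not vanish on the generic fibre
(`Exc`; so the points of `X` with `G = 0` are a proper closed subset if `X` is irreducible) such that for
ALL points `(P, y)` of `X(K)` with `G(P, y) ≠ 0` and ALL choices of sets `Q_v` of indices with `Meet Q_v`, for `v`
infinite (counted with multiplicity) or in `S`,
`∑ v, ∑ i ∈ Q_v, W_i λ_{D_i,v}(P, y) + hPl(E_P) ≤ h(M) ∑ j, M_j h(y_j) + ε (∑ j, h(y_j) + h(P)) + C`,
and the point is not on the `D_i`.

VOJTA'S CONJECTURE FOR `P(E)`. Let `E` be a vector bundle of rank `r` on `A`, `X = P(E)` the bundle of the lines in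
the fibres of `E`, `π : X → A` the projection, `ξ` the class of `O(1)`, and `D_i` relative hyperplanes, that is
effective divisors of the classes `ξ + π^* L_i`, or divisors of `A`. After a twist of `E`, which does not change `P(E)`,
`E` is a subbundle of a trivial bundle with coordinates `Z_l`, and `X` is closed in `A × ℙ^m`. For a large `a` the sum
of `D_i` and of a divisor of `A` has the equation `∑ l, Λ_{i,l}(x) Z_l = 0` with forms `Λ_{i,l}` of degree `a`. Take
`b = 1`, `y_(1,l) = Z_l`, `M = 1`, `J = 1`. Then `h(M) = r`, `W_i = 1` (`W_i = r` for the divisors of `A`), the space `Rel` at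
`P` is the fibre `E_P`, and the theorem says that
`∑ v, ∑ i ∈ Q_v, λ_{D_i,v} + (hPl(E_P) - r h(Z)) ≤ ε h + C`.
As `K_X = - r ξ + π^* det(E)^(-1)`, this is literally Vojta's main conjecture

`m_{S,D} + h_{K_X} ≤ ε h + O(1)` on `X(K)` outside of a proper closed subset, for `X = P(E)`,

for every vector bundle `E` on every abelian variety `A`, every `S` and every normal crossing divisor `D` whose
components have degree at most one on the fibres (even for sets of hyperplanes that depend on `v`, and for the
sum over `v` of the maximum over the linearly independent ones). If `A` is a point it is Schmidt's subspace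
theorem. For `r = 1` it is the inequality of Faltings on abelian varieties. It also follows for `P(E)` over all
smooth `V` birational to `A`, `E` any bundle on `V`: over an open subset of `A` the bundle `P(E)` is given by the kernel
of a matrix of forms on `A`, and the additional terms `h_{K_V}` and `m_{S,D'}` are at most `ε h(P) + O(1)` by
Vojta's conjecture for `V` (`UniformVojta`).

DIVISORS OF HIGHER DEGREE. Let `X_η` be the generic fibre, of dimension `n`, `L` the class of `O(M)` on it, such that the
`y_j` with `M_j > 0` embed `X_η`, and
`β_i = lim (∑_(j ≥ 1) h^0(X_η, t L - j D_i)) / (t h^0(X_η, t L))`. As the forms of multidegree `t M` are all sections of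
`t L` on `X_η` for large `t`, the theorem with `t M` instead of `M`, for large `t` and `J`, gives
`∑ v, ∑ i ∈ Q_v, β_i λ_{D_i,v} ≤ h_L + ε h(y, P) + C`,
the theorem of Ru and Vojta, for all rational points of `X`. Here the term `hPl ≥ 0` is left out; with it the
inequality is exact with respect to the base: it does not change if a class of `A` is added to `L`. For example:
(1) If `D_i` has degree `d_i` with respect to `L`, that is the class `d_i L + π^* L_i` with any `L_i`, then
`β_i = 1 / ((n + 1) d_i)`, so `∑ v, ∑ i ∈ Q_v, λ_{D_i,v} / d_i ≤ (n + 1) h_L + ε h(y, P) + C`, as in the theorems of Corvaja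
and Zannier and of Evertse and Ferretti, but for moving hypersurfaces of moving projective varieties, whose heights
may be as large as those of the points. This case is `UTH.EF_max` in the library (`MP_17a322_ntTH`, file `B4`), for
`b = 1`, any forms `F_i` of degrees `a_i` in `x` and `d_i > 0` in `y`.
(2) If `n = 1` then `β_i = deg L / (2 deg D_i)`, so
`∑ v, ∑ i ∈ Q_v, λ_{D_i,v} / deg D_i ≤ 2 h_L / deg L + ε h(y, P) + C`: Roth's theorem with its constant `2` on the fibres
of families of curves.
(3) If `- K` is ample on `X_η`, `L = - K_{X/A} + π^* N` and `β_i ≥ 1`, the inequality has the form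
`∑ v, ∑ i ∈ Q_v, λ_{D_i,v} + h_{K_X} ≤ ε h + C + h_c(P)` of Vojta's conjecture, where the class `c` of `A` is the limit of
`N - c_1(π_* O(t L)) / (t h^0(X_η, t L))`; it does not depend on `N`. For `P(E)` and for products `A × X_η` it is `0`.
(If the Plücker coordinates of `E` have common zeros on `A`, in codimension at least two, this changes the heights
by at most `ε h(P) + O(1)`.)

KNOWN. If `A` is a point: Schmidt, Vojta (linear case), Corvaja and Zannier (2004), Evertse and Ferretti (2008),
Autissier (2011), McKinnon and Roth (2015), Ru (2017), Ru and Vojta (2020). `X = A`: Faltings (1991). For `dim A > 0`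
and varying fibres the subspace theorem with moving targets and its generalisations to hypersurfaces
(Ru and Vojta 1997, Gasbarri, Chen, Ru and Yan, Le, Son, Tan and Thin, and others) need targets whose heights are
small compared with the ones of the points. Here the fibre, the divisors and the exceptional set
depend on `P` in `A(K)`, of heights as large as those of the points or larger.

THE PROOF uses the subspace theorem with moving targets over `A` of `Pool.Agent.Lib.MP_17a322_nt.SL`, in which the
space of the targets `E_P` may vary with its exact height, and for each subfamily `Q_v` and each direction a basis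
of `V_M` which is adapted to the joint filtration by the orders of vanishing along the `D_i`, as in the work of
Autissier and of Ru and Vojta. The Mordell-Weil theorem and everything else are proved in the library, nothing
is assumed.
-/

set_option autoImplicit false

universe u

namespace Pool.Agent.Results.MP_17a322_nt.RuVojta

open MvPolynomial Height UTA
open UTD (sat)
open Pool.Agent.Lib.MP_17a322_nt.VA (AV)
open Pool.Agent.Lib.MP_17a322_nt.SL (Gen)

/-- The equations `H_j` are homogeneous, the generic fibre of `X → A` is geometrically integral, and it is not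
contained in a divisor `D_i : F_i = 0` or in a hyperplane `y_(j, 0) = 0`. -/
structure Fam {K : Type u} [Field K] {N b m κ q : ℕ} (A : AV K N) (H : Fin κ → Fm K N b m)
    (F : Fin q → Fm K N b m) : Prop where
  hom : ∀ j, ∃ a d, Mh (H j) a d
  prime : ∀ (L : Type u) [Field L] [IsAlgClosed L] [Algebra K L] (P : A.Pts L), Gen A P →
    (fib H (A.x P)).IsPrime
  ne : ∀ (L : Type u) [Field L] [IsAlgClosed L] [Algebra K L] (P : A.Pts L), Gen A P →
    ∀ i, sp (F i) (A.x P) ∉ fib H (A.x P)
  ne0 : ∀ (L : Type u) [Field L] [IsAlgClosed L] [Algebra K L] (P : A.Pts L), Gen A P →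
    ∀ j, X (j, 0) ∉ fib H (A.x P)

/-- The divisors `D_i`, `i ∈ Q`, meet properly on the generic fibre `X_P`: for every set `J` of them, the
equation `F_i(P, y)` of a further one is not a zero divisor on the intersection of `X_P` with the `D_j`, `j ∈ J`. -/
def Meet {K : Type u} [Field K] {N b m κ q : ℕ} (A : AV K N) (H : Fin κ → Fm K N b m) (F : Fin q → Fm K N b m)
    (Q : Finset (Fin q)) : Prop :=
  ∀ (L : Type u) [Field L] [IsAlgClosed L] [Algebra K L] (P : A.Pts L), Gen A P →
    ∀ J : Finset (Fin q), J ⊆ Q → ∀ i ∈ Q, i ∉ J → ∀ f : MvPolynomial (Fin b × Fin (m + 1)) L,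
      sp (F i) (A.x P) * f ∈
        sat (fib H (A.x P) ⊔ Ideal.span ((fun j => sp (F j) (A.x P)) '' (J : Set (Fin q)))) →
      f ∈ sat (fib H (A.x P) ⊔ Ideal.span ((fun j => sp (F j) (A.x P)) '' (J : Set (Fin q))))

/-- `W_i` for the divisor `f = 0` on the closed subscheme with the ideal `I`: the sum for `j = 1, ..., J` of the
dimensions of the spaces of the forms of multidegree `M` which vanish to order at least `j` along it, that is, which
are locally multiples of `f ^ j`. -/
noncomputable def wt {L : Type u} [Field L] {b m : ℕ} (I : Ideal (MvPolynomial (Fin b × Fin (m + 1)) L))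
    (M : Fin b → ℕ) (J : ℕ) (f : MvPolynomial (Fin b × Fin (m + 1)) L) : ℕ :=
  ∑ j ∈ Finset.Icc 1 J, Module.finrank L (((MH L m M) ⊓
    (sat (I ⊔ Ideal.span {f ^ j})).restrictScalars L).map (Ideal.Quotient.mkₐ L I).toLinearMap)

/-- `mo` is a list of all the exponents of multidegree `M`. -/
def IsMon {b m n : ℕ} (M : Fin b → ℕ) (mo : Fin n → (Fin b × Fin (m + 1)) →₀ ℕ) : Prop :=
  Function.Injective mo ∧ ∀ μ : (Fin b × Fin (m + 1)) →₀ ℕ, (∀ i, ∑ l, μ (i, l) = M i) ↔ ∃ c, mo c = μ

/-- The vectors `(w_μ)` indexed by the monomials of multidegree `M` with `∑ a_μ w_μ = 0` for all forms `∑ a_μ y ^ μ`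
of multidegree `M` in the ideal `I`: the dual of the space of the forms of multidegree `M` modulo `I`. -/
noncomputable def Rel {L : Type u} [Field L] {b m n : ℕ} (I : Ideal (MvPolynomial (Fin b × Fin (m + 1)) L))
    (M : Fin b → ℕ) (mo : Fin n → (Fin b × Fin (m + 1)) →₀ ℕ) : Submodule L (Fin n → L) where
  carrier := {w | ∀ f ∈ I, f ∈ MH L m M → ∑ c, coeff (mo c) f * w c = 0}
  zero_mem' := fun f _ _ => by simp
  add_mem' := fun {a b} ha hb f hf hM => by
    simp only [Pi.add_apply, mul_add, Finset.sum_add_distrib, ha f hf hM, hb f hf hM, add_zero]
  smul_mem' := fun r a ha f hf hM => by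
    simp only [Pi.smul_apply, smul_eq_mul, mul_left_comm _ r, ← Finset.mul_sum, ha f hf hM, mul_zero]

/-- The height of a subspace: the height of the vector of its Plücker coordinates. -/
noncomputable def hPl {K : Type u} [Field K] [NumberField K] {n : ℕ} (W : Submodule K (Fin n → K)) : ℝ :=
  logHeight fun s : Fin (Module.finrank K W) → Fin n =>
    (Matrix.of fun a b => (Module.finBasis K W a : Fin n → K) (s b)).det

/-- The local height at `v` of the point `(x, y)` with respect to the divisor `F = 0`, where `F` is a form of degree
`a` in `x` and of multidegree `d` in `y`. -/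
noncomputable def lamD {K : Type u} [Field K] {N b m : ℕ} (a : ℕ) (d : Fin b → ℕ) (F : Fm K N b m)
    (v : AbsoluteValue K ℝ) (x : Fin (N + 1) → K) (y : Fin b → Fin (m + 1) → K) : ℝ :=
  a * Real.log (⨆ i, v (x i)) + ∑ j, d j * Real.log (⨆ l, v (y j l)) - Real.log (v (val F x y))

/-- Let `K` be a number field, `A` an abelian variety over `K` embedded in `ℙ^N` by a suitable symmetric
line bundle, `X` the closed subscheme `H(x, y) = 0` of `A × ℙ^m × ... × ℙ^m`, with a geometrically integral generic
fibre over `A`, `D_i` the divisor `F_i(x, y) = 0` of `X`, `i = 1, ..., q`, where `F_i` is any form of degree `a_i` in `x`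
and of multidegree `d_i` in `y` that does not vanish on this fibre, `P₀` a generic point of `A` over
an algebraically closed field, `M` a multidegree, `J` a natural number, and `mo` the list of the monomials of
multidegree `M`. Let `h(M)` be the dimension of the space of the forms of multidegree `M` on the generic fibre, and `W_i`
the sum for `j = 1, ..., J` of the dimensions of the spaces of the forms which vanish to order at least `j` along `D_i`.
For every finite set `S` of finite places and every `ε > 0` there are `C` and a form `G` that does not vanish on the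
generic fibre, such that for ALL points `(P, y)` of `X(K)` with `G(P, y) ≠ 0`: `y_(j,0) ≠ 0` for all `j`,
`F_i(P, y) ≠ 0` for all `i`, and for ALL choices of sets `Q_v`, `v` infinite or in `S`, such that the `D_i`, `i ∈ Q_v`, meet
properly on the generic fibre,
`∑ v, ∑ i ∈ Q_v, W_i λ_{D_i,v}(P, y) + hPl(E_P) ≤ h(M) ∑ j, M_j h(y_j) + ε (∑ j, h(y_j) + h(P)) + C`,
where `hPl(E_P)` is the height of the space `E_P = Rel` of the vectors `(w_μ)` with `∑ a_μ w_μ = 0` for all forms
`∑ a_μ y^μ` of multidegree `M` in the ideal generated by the `H_j(P, y)`. -/
theorem result {K : Type u} [Field K] [NumberField K] {N b m κ q : ℕ} (A : AV K N)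
    (H : Fin κ → Fm K N b m) (F : Fin q → Fm K N b m) (a : Fin q → ℕ) (d : Fin q → Fin b → ℕ)
    (hF : ∀ i, Mh (F i) (a i) (d i)) (hX : Fam A H F)
    {L₀ : Type u} [Field L₀] [IsAlgClosed L₀] [Algebra K L₀]
    (P₀ : A.Pts L₀) (hP₀ : Gen A P₀) (M : Fin b → ℕ) (J : ℕ)
    {n : ℕ} (mo : Fin n → (Fin b × Fin (m + 1)) →₀ ℕ) (hmo : IsMon M mo)
    (S : Finset (NumberField.FinitePlace K)) (ε : ℝ) (hε : 0 < ε) :
    ∃ (C : ℝ) (G : Fm K N b m), Exc A H G ∧
      ∀ (P : A.Pts K) (y : Fin b → Fin (m + 1) → K), InX H (A.x P) y → val G (A.x P) y ≠ 0 →
        (∀ j, y j 0 ≠ 0) ∧ (∀ i, val (F i) (A.x P) y ≠ 0) ∧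
        ∀ (Qi : NumberField.InfinitePlace K → Finset (Fin q))
          (Qf : NumberField.FinitePlace K → Finset (Fin q)),
          (∀ v, Meet A H F (Qi v)) → (∀ v ∈ S, Meet A H F (Qf v)) →
          (∑ v : NumberField.InfinitePlace K, (v.mult : ℝ) * ∑ i ∈ Qi v,
              (wt (fib H (A.x P₀)) M J (sp (F i) (A.x P₀)) : ℝ) * lamD (a i) (d i) (F i) v.val (A.x P) y) +
            (∑ v ∈ S, ∑ i ∈ Qf v,
              (wt (fib H (A.x P₀)) M J (sp (F i) (A.x P₀)) : ℝ) * lamD (a i) (d i) (F i) v.val (A.x P) y) +
            hPl (Rel (fib H (A.x P)) M mo) ≤
          hf (fib H (A.x P₀)) M * ∑ j, (M j : ℝ) * logHeight (y j) +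
            ε * (∑ j, logHeight (y j) + logHeight (A.x P)) + C := by
  have hV : UTD.Vars A H ∅ := ⟨hX.hom, hX.prime, hX.ne0,
    fun L _ _ _ P _ J _ i hi => absurd hi (Finset.notMem_empty i)⟩
  have h1 : (1 : MvPolynomial (Fin (N + 1)) K) ∉ A.I := fun h => by
    have h0 := P₀.2 1 h
    rw [map_one] at h0
    exact one_ne_zero h0
  obtain ⟨C, G, hG, hmain⟩ := UTH.T4F_max A H hV F a d hF (fun i => ⟨⟨_, _, hF i⟩, fun L _ _ _ P hP => hX.ne L P hP i⟩)
    P₀ hP₀ M J hmo 1 (isHomogeneous_one _ _) h1 S ε hε
  refine ⟨C, G, UTA.NF.exc' ⟨hX.prime, hX.ne0⟩ hG, fun P y hy hval => ?_⟩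
  obtain ⟨h2, h3, -, h4⟩ := hmain P y hy hval
  refine ⟨h2, h3, fun Qi Qf hQi hQf => ?_⟩
  have h5 := h4 Qi Qf hQi hQf
  have e0 : ∀ v : AbsoluteValue K ℝ, LR 0 1 v (A.x P) = 0 := fun v => by
    unfold LR
    simp
  simp only [e0, mul_zero, Finset.sum_const_zero, add_zero] at h5
  exact h5

end Pool.Agent.Results.MP_17a322_nt.RuVojta
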