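import Mathlib
import Pool.Agent.Lib.MP_17a322_nt.SV3.S1
import Pool.Agent.Lib.MP_17a322_nt.SV3.Z1
import Pool.Agent.Lib.MP_17a322_ntMW.W6

/-!
Vojta's conjecture for integral points over ALL semiabelian varieties: the inequality of Vojta for the
`(B, S)`-integral points, and for arbitrary further divisors, on all log varieties `(X, B)` with a proper
birational morphism from `X - B` (or a finite étale cover) to a semiabelian variety or, more generally, to any
principal `𝔾_m ^ q`-bundle `T` over an abelian variety `A`; greatest common divisors of the values of
functions at the integral points of `T`.

THE ABELIAN VARIETY. `A` is an abelian variety of any dimension over the number field `K`, embedded in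
`ℙ^N`: `A.I` is its homogeneous ideal, prime over every extension field; the sets `A.Pts L` of the points
over the extension fields `L` of `K` are groups, compatibly with homomorphisms of fields over `K`; and
there are forms `A.S a b` of bidegree `(2, 2)` such that `A.S a b (P, Q)` is proportional to
`X a (P + Q) * X b (P - Q)` (with a nonzero factor that does not depend on `a` and `b`). Such an
embedding exists for every abelian variety, for example the one given by the fourth power of an ample
symmetric line bundle. The point is allowed. `h = logHeight`.

THE BUNDLE. `B : Bun A q p p'` is a principal bundle `T` over `A` for the group `𝔾_m ^ q`, `q > 0`. It is given,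
for `i < q`, by a matrix `B.ζ i` of forms of degree `B.e i` which has rank one at every point of `A`, and by a
twist `B.k i`. The points of `T` over the point `P = [x]` of `A` are the `y = (y_1, ..., y_q)`, where `y_i ≠ 0` is
proportional to the columns of the matrix `B.ζ i` at `x` (`B.On P y`); if `x` is replaced by `c * x` then
`y_i` has to be replaced by `c ^ k_i * y_i`. Every principal `𝔾_m ^ q`-bundle over `A` has such a
description (`y_i` is a coordinate vector of a point of a line bundle). Examples:

* `A × 𝔾_m ^ q`: all matrices are the `1 × 1` matrix `1`, `k_i = 0`, `y` is the point of `𝔾_m ^ q`;
* every semiabelian variety `0 → 𝔾_m ^ q → T → A → 0`, split or not: `T` is given by `q` line bundles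
  which are algebraically equivalent to zero, over a finite extension of `K` they are
  `t_{a_i}^* O(1) ⊗ O(-1)` with points `a_i` of `A`. Take `k_i = 1` and `ζ_i b c = S b c (x, x(a_i))`, of
  degree `2`: then `y_i` is any vector of coordinates of the point `P + a_i`. This is the bundle
  `semi A a` with `semi_On` in `Pool.Agent.Lib.MP_17a322_nt.SV3.S1`;
* the affine cone over `A` without its vertex: `q = 1`, `ζ` is the column `x`, `k = 0`, and `y` is any vector
  of homogeneous coordinates of `P`.

THE SUBSCHEME AND THE DIVISOR.
* `B.WH D b` says that the polynomial `b` in the coordinates `x` of `A` and `y` of the bundle is weighted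
  homogeneous of degree `D` if `x_j` has the weight `1` and `y_{i,c}` has the weight `k_i`. `ev P y b` is its
  value at `(P, y)`, and `B.Van b` says that `b` vanishes identically on `T`.
* `g_1, ..., g_m` are weighted homogeneous of the same degree `D`. The hypothesis `hY : B.CodTwo g` says
  that their common zeros in `T` have codimension at least two: for every point `(P, y)` of `T` over an
  extension field with `g_k(x, y) = 0` for all `k`, the transcendence degree over `K` of the field generated
  by the `x_i / x_j` and `y_{i,b} / x_j ^ k_i` is at most the transcendence degree of a point of `A` (over
  some extension field) plus `q - 2`. There is no condition at the boundary of a compactification.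
* `B.New g` is the set of the multidegrees `a` in `y_1, ..., y_q` such that for some `k` the part of
  multidegree `a` of `g_k` does not vanish identically on `T`, and for `τ` in `ℝ ^ q` the number
  `B.sup g τ` is the maximum of `⟨a, τ⟩` for `a` in `B.New g`.
* `B.tau v P y i = log |y_i|_v - k_i log |x|_v` (`|.|_v` of a vector is the maximum of the absolute values of
  its coordinates). `B.loc v D g P y`, which is
  `D log |x|_v + B.sup g (B.tau v P y) - log max_k |g_k(x, y)|_v`, is the local height of `(P, y)` with
  respect to the closed subscheme `g_1 = ... = g_m = 0` of `V`. Here `V` is the compactification of `T` given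
  by a smooth projective toric variety whose fan refines the normal fan of the convex hull of `B.New g`,
  and the `g_k` are sections of the line bundle on `V` given by `O(D)` and this convex hull.
* `f` is a weighted homogeneous polynomial of degree `e` which does not vanish identically on `T`;
  `B.loc v e (fun _ => f) P y` is the local height of `(P, y)` with respect to the closure of the divisor
  `f = 0` of `T`, which may have any singularities, multiplicities and position.
* `B.ht P y i` is the height of the vector `(x_0 ^ k_i, ..., x_N ^ k_i, y_i)`; the sum of `h(P)` and the
  `B.ht P y i` is the height for an ample class on the compactification of `T` by `(ℙ¹) ^ q`.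
* `B.NS S P y` is the sum of the `|B.tau v P y i|` over all `i` and all finite places `v` not in `S`. It is
  `0` if `|y_i|_v = |x|_v ^ k_i` for all these `i` and `v`: these are the `S`-integral points of `T` (the
  points which are integral with respect to the boundary of `V`).

THE THEOREM. For every `ε > 0` there are a proper closed subset of `T` and a constant `C` such that for ALL points
`(P, y)` of `T(K)` outside of it the sum of the local heights `B.loc v D g P y` over ALL places plus the sum of
the `B.loc v e (fun _ => f) P y` over the infinite places and those in `S` is at most
`ε (h(P) + ∑ i, B.ht P y i) + C (1 + B.NS S P y)`; in particular at most `ε h + C` at the `S`-integral points of `T`.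

GREATEST COMMON DIVISORS. The sum of the numbers `B.loc v D g P y` over all places (with multiplicity for the
infinite ones) is the height with respect to the subscheme `g_1 = ... = g_m = 0`: on a blow-up of `V` on which it
becomes a divisor, the height for this divisor. It is the generalised logarithmic greatest common divisor of
the values `g_k(x, y)`. For example, let `A = E` be an elliptic curve and `T = E × 𝔾_m`, and let `g` be the forms
`(y - 1) x_i`, `l_j(x)` and `y l_j(x)`, with linear forms `l_j` whose only common zero on `E` is the origin `O`. Then
for all `P` in `E(K)` and all `S`-units `u`, `(P, u)` outside of a proper closed subset of `E × 𝔾_m`,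
`∑ v, min (λ_{1,v}(u), λ_{O,v}(P)) ≤ ε (h(P) + h(u)) + C`,
where the sum is over all places and `λ_{1,v}(u) = - log (|u - 1|_v / max (1, |u|_v))`,
`λ_{O,v}(P) = - log (max_j |l_j(x)|_v / |x|_v)`: the denominator `D_P` of `P` and `u - 1` have only a small common divisor,
`log gcd (u - 1, D_P) ≤ ε (h(P) + h(u)) + C`. Bounds of this kind were conjectured by Silverman (2005), as consequences
of Vojta's conjecture. The same holds for `A × 𝔾_m ^ n`, any
abelian variety `A` and any `g_1`, `g_2` without common component in `A × 𝔾_m ^ n`, and for all semiabelian
varieties. On the cone over an elliptic curve over `ℚ` one gets the common divisors of inhomogeneous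
polynomials in the coprime integral coordinates of the rational points of the curve.

VOJTA'S CONJECTURE. The sum of the numbers `B.loc v e (fun _ => f) P y` over the infinite places (with multiplicity)
and over the places in `S` is the proximity function of the divisor. The boundary `V - T` has normal crossings,
`K_V` plus the boundary is trivial, and the divisors over `V` with log discrepancy zero are those of the toric
modifications of `V`. Let `X` be a smooth projective variety, `B'` a normal crossing divisor on `X` such that there
is a proper birational morphism `X - B' → T`, and `D_1` an effective divisor on `X` which contains no component of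
an intersection of components of `B'` (its singularities and multiplicities are arbitrary). Then the theorem
gives, by functoriality, `m_{S, D_1}(P) + h_{K_X + B'}(P) ≤ ε h(P) + O(1)`, `h` a height for an ample divisor,
outside a proper closed subset for all points `P` of `X(K)` which are `S`-integral with respect to `B'`.
For these points the left hand side is `m_{S, D}(P) + h_{K_X}(P) + O(1)` with `D = B' + D_1`: this is
Vojta's inequality. By the theorem of Chevalley and Weil it suffices that a finite étale cover of
`X - B'` has a proper birational morphism to `T`. (These deductions are not in Lean.)

KNOWN. `T = 𝔾_m ^ n` (`A` the point): Bugeaud, Corvaja and Zannier (2003), Corvaja and Zannier (2005), Levin (2019). For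
semiabelian `T` and `D_1` alone, that is without `g`: Faltings (1991), Vojta (1996, 1999). The case `q = 0` of abelian
varieties is excluded here; it is contained in `UniformVojta`, in a uniform version. The corresponding theorems in
Nevanlinna theory are due to Noguchi, Winkelmann and Yamanoi. Over function fields of characteristic `0`: Silverman
(2004) and Ghioca, Hsia and Tucker (2017) for multiples of points on elliptic curves, Barroero, Capuano and Turchet
(2022) for multiples of points on abelian and split semiabelian varieties. Over NUMBER FIELDS we know of no theorem on
the heights with respect to subschemes of codimension at least two over a semiabelian variety with `dim A > 0` and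
`q > 0`, not even for `E × 𝔾_m`. It does not follow from the cases `T = A` and `T = 𝔾_m ^ n` by a fibration: over a
fixed `P` the constants depend on `P`, and here `h(P)` and `h(u)` are of the same size.

The Mordell-Weil theorem and everything else are proved in the library, nothing is assumed.
-/

namespace Pool.Agent.Results.MP_17a322_nt.SemiabelianVojta

open MvPolynomial Height
open Pool.Agent.Lib.MP_17a322_nt.VA (AV)
open Pool.Agent.Lib.MP_17a322_nt.SV3

universe u

/-- Let `K` be a number field, `A` an abelian variety over `K` embedded in `ℙ^N` by a suitable symmetric
line bundle, `T` a principal `𝔾_m ^ q`-bundle over `A` (for example a semiabelian variety), `q > 0`, `S` a finite set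
of finite places of `K`, `g_1, ..., g_m` weighted homogeneous polynomials of degree `D` in the coordinates `x` of `A`
and `y` of `T` whose common zeros in `T` have codimension at least two, and `f` weighted homogeneous of degree
`e` and not identically zero on `T`. For every `ε > 0` there are a weighted homogeneous polynomial `G` which does
not vanish identically on `T` and a constant `C` such that for ALL `P = [x]` in `A(K)` and all `y` in the fibre of
`T(K)` over `P` with `G(x, y) ≠ 0` one has `g_k(x, y) ≠ 0` for some `k`, `f(x, y) ≠ 0` and
`∑_v λ_{g,v}(P, y) + ∑_{v ∈ S or v | ∞} λ_{f,v}(P, y) ≤ ε (h(P) + ∑ h(y_i)) + C (1 + N_S(y))`. -/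
theorem result {K : Type u} [Field K] [NumberField K] {N q p p' m : ℕ} {A : AV K N}
    (B : Bun A q p p') (_hq : 0 < q) (D : ℕ)
    (g : Fin m → MvPolynomial (Fin q × Fin p) (MvPolynomial (Fin (N + 1)) K))
    (hg : ∀ k, B.WH D (g k)) (hY : B.CodTwo g) (e : ℕ)
    (f : MvPolynomial (Fin q × Fin p) (MvPolynomial (Fin (N + 1)) K)) (hf : B.WH e f)
    (hf0 : ¬ B.Van f) (S : Finset (NumberField.FinitePlace K)) (ε : ℝ) (hε : 0 < ε) :
    ∃ (G : MvPolynomial (Fin q × Fin p) (MvPolynomial (Fin (N + 1)) K)) (C : ℝ),
      (∃ E, B.WH E G) ∧ ¬ B.Van G ∧ ∀ (P : A.Pts K) (y : Fin q × Fin p → K), B.On P y →
        ev P y G ≠ 0 → (∃ k, ev P y (g k) ≠ 0) ∧ ev P y f ≠ 0 ∧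
        ((∑ v : NumberField.InfinitePlace K, (v.mult : ℝ) * B.loc v.val D g P y) +
            ∑ᶠ v : NumberField.FinitePlace K, B.loc v.val D g P y) +
          ((∑ v : NumberField.InfinitePlace K, (v.mult : ℝ) *
              B.loc v.val e (fun _ : Fin 1 => f) P y) +
            ∑ v ∈ S, B.loc v.val e (fun _ : Fin 1 => f) P y) ≤
          ε * (logHeight (A.x P) + ∑ i, B.ht P y i) + C * (1 + B.NS S P y) := by
  obtain ⟨G, C, h1, h2, h3⟩ := final B ⊤ (MWA.MW A) D g hg hY e f hf hf0 S ε hε
  exact ⟨G, C, h1, h2, fun P y hP hG => h3 P (AddSubgroup.mem_top P) y hP hG⟩

end Pool.Agent.Results.MP_17a322_nt.SemiabelianVojta
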