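import Pool.Agent.Lib.MP_17a322_ntBB.K5
import Pool.Agent.Lib.MP_17a322_ntBB.Z4
import Pool.Agent.Lib.MP_17a322_ntEA.Fam

/-!
Vojta's conjecture on varieties over an abelian variety, in particular on ALL smooth projective
varieties birational to an abelian variety, for all rational points and uniformly in families.

THE ABELIAN VARIETY. `A` is an abelian variety of any dimension over the number field `K`, embedded in
`ℙ^N`: `A.I` is its homogeneous ideal, prime over every extension field; the sets `A.Pts L` of the points
over the extension fields `L` of `K` are groups, compatibly with homomorphisms of fields over `K`; and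
there are forms `A.S a b` of bidegree `(2, 2)` such that `A.S a b (P, Q)` is proportional to
`X a (P + Q) * X b (P - Q)` (with a nonzero factor that does not depend on `a` and `b`). Such an
embedding exists for every abelian variety, for example the one given by the fourth power of an ample
symmetric line bundle. In Lean: all products of elliptic curves in their Segre embeddings are such `A`
(`products` below). `IsSubAV B A`: `B` is an abelian subvariety of `A` (the point `0` is allowed),
`inc` is the inclusion. `h = logHeight`.

THE FAMILY. The parameter `t` runs through all points of `ℙ^M(K)`. `X_t` is the closed subscheme of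
`A × ℙ^m` with the equations `q_1(x, y, t) = ... = q_κ(x, y, t) = 0` (`x`: coordinates of `A`, `y`:
coordinates of `ℙ^m`), `E_t` and `D_t` are the closed subschemes of `X_t` with the equations
`e_1(x, y, t) = ... = e_r(x, y, t) = 0` and `f_1(x, y, t) = ... = f_s(x, y, t) = 0`. The polynomials are
homogeneous in each of the three groups of variables (`Tri`), of tridegree `(a, b, c)` in `(x, y, t)` for
the `e_j` and `(a', b', c')` for the `f_j`. THERE IS NO OTHER HYPOTHESIS on `X_t`, `E_t`, `D_t`. Let `π` be
the projection of `X_t` to `A`; `Im q e x t` says that the point `[x]` lies in `π(E_t)`.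

* `hE a b c e x y t = a h(x) + b h(y) + c h(t) - h([e_1(x, y, t) : ... : e_r(x, y, t)])` is the height of
  the point `(x, y)` of `X_t` with respect to `E_t`.
* `lamX a' b' c' f x y t v = a' log |x|_v + b' log |y|_v + c' log |t|_v - log max_j |f_j(x, y, t)|_v` is
  its local height at `v` with respect to `D_t`, and the proximity `prox` is the sum of these over the
  infinite places (with multiplicity) and the places in `S`.
* `TrX hB P t q f`: the translate `P + B` is contained in `π(D_t)`. `BadX hB P t q e`: the intersection of
  `P + B` and `π(E_t)` has codimension at most one in `P + B`: there is a point `b` of `B` over an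
  extension field of `K` with `P + b` in `π(E_t)`, whose transcendence degree over `K` is at least the
  maximal one minus one. `Exc`: the set of the exceptional points, the union of the translates `w + B_i(K)`
  with `w` in `A(K)`, `h(w) ≤ C (1 + h(t))`, of which one of these two holds.
* `Cod2 A q e t`: `π(E_t)` has codimension at least two in `A`. `NotAll A q f t`: `π(D_t)` is not `A`.

THE THEOREM. There are a constant `C` and finitely many abelian subvarieties `B_i` of `A`, which depend on
`A`, the polynomials, `S` and `ε` but NOT on `t`, such that for all `t`:

(1) every point `(P, y)` of `X_t(K)` with `P` not in `Exc` lies neither in `D_t` nor in `E_t`, and its height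
    with respect to `E_t` plus its proximity to `D_t` is at most `ε h(P) + C (1 + h(t))`;

(2) `Exc` is contained in a proper closed subset of `A`, that is there is a form `G`, not zero on `A`, which
    vanishes on it, if `π(E_t)` has codimension at least two and `π(D_t)` is not `A`, and in particular
    (`Bir A q e f t`) if `X_t` is the closure of the graph of a rational map from `A` to `ℙ^m`, all
    `m × m` minors of the matrix `(∂ q_j / ∂ y_l)` vanish at all points of `E_t`, and `D_t` does not contain `X_t`.

VOJTA'S CONJECTURE FOR ALL VARIETIES BIRATIONAL TO AN ABELIAN VARIETY. Let `X` be a smooth projective variety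
over `K` birational to `A`. The birational map is a morphism `π : X → A` (every rational map from a smooth
variety to an abelian variety is a morphism), so for any embedding of `X` in `ℙ^m` the graph of `π` is a closed
subvariety of `A × ℙ^m` isomorphic to `X`, which is the closure of the graph of the inverse rational map
`[s_0 : ... : s_m] : A → X ⊆ ℙ^m` (`Graph`: the equations `q_j` vanish on this graph, and every bihomogeneous
polynomial `G(x, y)` that vanishes on it, i.e. `G(x, s(x)) ∈ A.I`, lies in the ideal of the `q_j` and of `A`
after multiplication by powers of the coordinates). Take for `e_1, ..., e_r` all the `m × m` minors of the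
matrix `(∂ q_j / ∂ y_l)` (`mnr` in the library; they are homogeneous of the same degrees if the `q_j` are, see
`tri_mnr`, which one reaches by multiplying the `q_j` with monomials; `InRam` holds for them by definition, see
`inRam_mnr`). The ideal which they define on `X` is the zeroth Fitting ideal of the relative differentials of
`X` over `A` (one of the columns is a combination of the others, by the formula of Euler), and this is the
ideal of the zeros of the Jacobian determinant of `π`; as the sheaf of differentials of `A` is free, `E` is the
divisor of the pull back of the invariant differential form of degree `dim A`, a canonical divisor, as a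
scheme: `E = K_X`. So for every divisor `D` of `X` (with normal crossings or not), every `S` and
every `ε > 0` the theorem (for a constant family) says that
`m_{S,D}(P) + h_{K_X}(P) ≤ ε h(π(P)) + O(1)` for all `P` in `X(K)` outside the proper closed subset
`G(π(P)) = 0`, and `h(π(P))` is at most a constant times the height with respect to any ample divisor, up to a
constant. This is Vojta's main conjecture for `X`. Moreover the exceptional set is described by finitely
many translates of abelian subvarieties, and in families the bounded term is `C (1 + h(t))`. For points which
are `S`-integral with respect to `D` it follows that they are not Zariski dense if `K_X + D` is big, for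
every divisor `D` of such an `X`. The case `m = 0` is the inequality for closed subschemes of `A` itself:
`m_{S,D} + h_Y ≤ ε h + C (1 + h(t))` for all `Y` of codimension at least two and all `D`.

The Mordell-Weil theorem and everything else are proved in the library, nothing is assumed.
-/

universe u

namespace Pool.Agent.Results.MP_17a322_nt.UniformVojta

open MvPolynomial Height UVD
open Pool.Agent.Lib.MP_17a322_nt Pool.Agent.Lib.MP_17a322_nt.VA

/-- Let `K` be a number field, `A` an abelian variety over `K` embedded in `ℙ^N` by a suitable symmetric
line bundle, `X_t ⊆ A × ℙ^m` the closed subscheme `q(x, y, t) = 0` and `E_t`, `D_t` its closed subschemes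
`e(x, y, t) = 0`, `f(x, y, t) = 0` (`t` in `ℙ^M(K)`), `S` a finite set of finite places of `K`, and `ε > 0`.
There are a constant `C` and finitely many abelian subvarieties `B_i` of `A` such that for all `t`:
(1) for ALL points `(P, y)` of `X_t(K)`, either `P` is exceptional, that is `P = w + p` with `w` in `A(K)`,
`h(w) ≤ C (1 + h(t))`, `p` in `B_i(K)`, and `P + B_i` is contained in `π(D_t)` or meets `π(E_t)` in codimension
at most one; or `(P, y)` lies neither in `D_t` nor in `E_t` and
`a h(P) + b h(y) + c h(t) - h([e_j(x, y, t)])` plus the sum over the infinite places (with multiplicity) and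
the places in `S` of `a' log |x|_v + b' log |y|_v + c' log |t|_v - log max_j |f_j(x, y, t)|_v` is at most
`ε h(P) + C (1 + h(t))`;
(2) a form that is not zero on `A` vanishes at all exceptional points, if `π(E_t)` has codimension at least two
in `A` and `π(D_t)` is not `A`, or if `X_t` is the closure of the graph of a rational map from `A` to `ℙ^m`, the
`m × m` minors of `(∂ q_j / ∂ y_l)` vanish on `E_t`, and `D_t` does not contain `X_t`. -/
theorem result {K : Type u} [Field K] [NumberField K] {N m M : ℕ} (A : AV K N)
    {κ : ℕ} (q : Fin κ → Fm K N m M) (hq : ∀ j, ∃ a b c, Tri (q j) a b c)
    {a b c r : ℕ} (e : Fin r → Fm K N m M) (he : ∀ j, Tri (e j) a b c)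
    {a' b' c' s : ℕ} (f : Fin s → Fm K N m M) (hf : ∀ j, Tri (f j) a' b' c')
    (S : Finset (NumberField.FinitePlace K)) (ε : ℝ) (hε : 0 < ε) :
    ∃ (C : ℝ) (k : ℕ) (B : Fin k → AV K N) (hB : ∀ i, IsSubAV (B i) A),
      ∀ t : Fin (M + 1) → K, t ≠ 0 →
        (∀ (P : A.Pts K) (y : Fin (m + 1) → K), y ≠ 0 → (∀ j, val (q j) (A.x P) y t = 0) →
          Exc B hB C q e f t P ∨
          ((∃ j, val (f j) (A.x P) y t ≠ 0) ∧ (∃ j, val (e j) (A.x P) y t ≠ 0) ∧
            hE a b c e (A.x P) y t + prox a' b' c' f S (A.x P) y t ≤
              ε * logHeight (A.x P) + C * (1 + logHeight t))) ∧
        ((Cod2 A q e t ∧ NotAll A q f t) ∨ Bir A q e f t →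
          ∃ (n : ℕ) (G : MvPolynomial (Fin (N + 1)) K), G.IsHomogeneous n ∧ G ∉ A.I ∧
            ∀ P : A.Pts K, Exc B hB C q e f t P → aeval (A.x P) G = 0) :=
  final4 A q hq e he f hf S ε hε

/-- Every product of elliptic curves is an `A` as above: for `n + 1` elliptic curves
`y² = x³ + a i x + b i` over a field `K` there are `N`, `A : AV K N` of dimension `n + 1` and isomorphisms of
groups between the families of points of the curves (with Mathlib's group law) and the points of `A`, over
every extension field of `K`, for which the coordinates of the image of a family are proportional to the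
products of the coordinates of its members. -/
theorem products {K : Type u} [Field K] {n : ℕ} {a b : Fin (n + 1) → K}
    (h : ∀ i, (EA.crv (a i) (b i)).Δ ≠ 0) :
    ∃ (N : ℕ) (A : AV K N) (κ : (Fin (n + 1) → Fin (2 + 1)) ≃ Fin (N + 1))
      (e : ∀ (L : Type u) [Field L] [Algebra K L], (∀ i, EA.EP (a i) (b i) L) ≃+ A.Pts L),
      A.dimIs (n + 1) ∧
      ∀ (L : Type u) [Field L] [Algebra K L] (P : ∀ i, EA.EP (a i) (b i) L), ∃ c : L, c ≠ 0 ∧
        ∀ s, A.x (e L P) (κ s) = c * ∏ i, EA.co (P i) (s i) :=
  EA.exists_family h

end Pool.Agent.Results.MP_17a322_nt.UniformVojta
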